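import Pool.Agent.H11.KT.Targets
import Pool.Agent.H19.EL.BA

/-!
# Module (BA): the number of the variations which do not generate
-/

set_option autoImplicit false

open scoped commutatorElement

namespace Pool.Agent.H46.KT

open Pool.Agent.H11.EL Pool.Agent.H11.KT

variable {G : Type} [Group G]

open Classical in
/-- an element `p` of `M` with `p g p⁻¹` in `H`, if there is one -/
noncomputable def pk (M H : Subgroup G) (g : G) : M :=
  if h : ∃ p : M, (p : G) * g * (p : G)⁻¹ ∈ H then h.choose else 1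

theorem pk_spec {M H : Subgroup G} {g : G} (h : ∃ p : M, (p : G) * g * (p : G)⁻¹ ∈ H) :
    ((pk M H g : M) : G) * g * ((pk M H g : M) : G)⁻¹ ∈ H := by
  unfold pk
  rw [dif_pos h]
  exact h.choose_spec

theorem pf_BA (_hCI : K_CI) (_hPI : K_PI) : K_BA := by
  intro G _ _ M Z h d s hs n t ht
  have hnM := h.nM
  have hnZ := h.nZ
  obtain ⟨H, hHdef⟩ : ∃ H : (Fin n → M) → Subgroup G, H = fun x => Subgroup.closure
      (en n (cj t (sq n (1 : G) fun j => ((x j : M) : G))) ∪ Z) := ⟨_, rfl⟩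
  have hgoal : Nat.card {x : Fin n → M // Subgroup.closure
      (en n (cj t (sq n (1 : G) fun j => ((x j : M) : G))) ∪ Z) ≠ ⊤} =
      Nat.card {x : Fin n → M // H x ≠ ⊤} := by rw [hHdef]
  rw [hgoal]
  have hZ : ∀ x, Z ≤ H x := fun x z hz => by
    rw [hHdef]; exact Subgroup.subset_closure (Or.inr hz)
  have hx : ∀ (x : Fin n → M) (i : Fin n), ((x i : M) : G) * t i * ((x i : M) : G)⁻¹ ∈ H x := by
    intro x i
    rw [hHdef]
    refine Subgroup.subset_closure (Or.inl ⟨i, i.2, ?_⟩)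
    show _ = sq n (1 : G) (fun j => ((x j : M) : G)) i * t i *
      (sq n (1 : G) (fun j => ((x j : M) : G)) i)⁻¹
    rw [sq_lt _ _ i.2]
  have hM : ∀ x, H x ⊔ M = ⊤ := by
    intro x
    rw [eq_top_iff, ← ht, Subgroup.closure_le]
    rintro g (⟨i, hi, rfl⟩ | hg)
    · have e : t i = ((x ⟨i, hi⟩ : M) : G)⁻¹ *
          (((x ⟨i, hi⟩ : M) : G) * t i * ((x ⟨i, hi⟩ : M) : G)⁻¹) * ((x ⟨i, hi⟩ : M) : G) := by
        group
      rw [e]
      exact (H x ⊔ M).mul_mem ((H x ⊔ M).mul_mem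
        ((le_sup_right : M ≤ H x ⊔ M) (M.inv_mem (x ⟨i, hi⟩).2))
        ((le_sup_left : H x ≤ H x ⊔ M) (hx x ⟨i, hi⟩)))
        ((le_sup_right : M ≤ H x ⊔ M) (x ⟨i, hi⟩).2)
    · exact (le_sup_right : M ≤ H x ⊔ M) hg
  -- the difference of two solutions
  have hdiff : ∀ (x : Fin n → M), H x ≠ ⊤ → ∀ i : Fin n,
      ⁅((((pk M (H x) (t i))⁻¹ * x i : M)) : G), t i⁆ ∈ Z := by
    intro x hne i
    have h1 := pk_spec (M := M) (H := H x) (g := t i) ⟨x i, hx x i⟩
    obtain ⟨p, hp⟩ : ∃ p : M, p = pk M (H x) (t i) := ⟨_, rfl⟩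
    rw [← hp] at h1 ⊢
    have h2 : (((x i : M) : G) * t i * ((x i : M) : G)⁻¹) * ((p : G) * t i * (p : G)⁻¹)⁻¹ ∈ Z := by
      rw [← Pool.Agent.H19.EL.inf_eq h (hZ x) (hM x) hne]
      refine ⟨(H x).mul_mem (hx x i) ((H x).inv_mem h1), ?_⟩
      have e : (((x i : M) : G) * t i * ((x i : M) : G)⁻¹) * ((p : G) * t i * (p : G)⁻¹)⁻¹ =
          ((x i : M) : G) * (t i * (((x i : M) : G)⁻¹ * (p : G)) * (t i)⁻¹) * (p : G)⁻¹ := by
        group
      show _ ∈ M
      rw [e]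
      exact M.mul_mem (M.mul_mem (x i).2
        (hnM.conj_mem _ (M.mul_mem (M.inv_mem (x i).2) p.2) _)) (M.inv_mem p.2)
    have h3 := hnZ.conj_mem _ h2 (p : G)⁻¹
    have e : ⁅((((p)⁻¹ * x i : M)) : G), t i⁆ = (p : G)⁻¹ *
        ((((x i : M) : G) * t i * ((x i : M) : G)⁻¹) * ((p : G) * t i * (p : G)⁻¹)⁻¹) *
          ((p : G)⁻¹)⁻¹ := by
      rw [commutatorElement_def]
      push_cast
      group
    rw [e]
    exact h3
  let Φ : {x : Fin n → M // H x ≠ ⊤} → (Fin d → M ⧸ Z.subgroupOf M) ×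
      {u : Fin n → M // ∀ i : Fin n, ⁅((u i : M) : G), t i⁆ ∈ Z} :=
    fun x => (fun j => (Pool.Agent.H19.EL.pick M (H x.1) (s j) : M ⧸ Z.subgroupOf M),
      ⟨fun i => (pk M (H x.1) (t i))⁻¹ * x.1 i, hdiff x.1 x.2⟩)
  have hΦ : Function.Injective Φ := by
    intro x x' he
    have h1 : (fun j => (Pool.Agent.H19.EL.pick M (H x.1) (s j) : M ⧸ Z.subgroupOf M)) =
        fun j => (Pool.Agent.H19.EL.pick M (H x'.1) (s j) : M ⧸ Z.subgroupOf M) :=
      congrArg Prod.fst he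
    have h2 := congrArg (fun z => z.2.1) he
    have hH : H x.1 = H x'.1 := Pool.Agent.H19.EL.supp_eq h (hZ _) (hZ _) (hM _) (hM _) x.2 x'.2
      s hs (fun j => QuotientGroup.eq.1 (congrFun h1 j))
    apply Subtype.ext
    funext i
    have h3 := congrFun h2 i
    change (pk M (H x.1) (t i))⁻¹ * x.1 i = (pk M (H x'.1) (t i))⁻¹ * x'.1 i at h3
    rw [hH] at h3
    exact mul_left_cancel h3
  have h6 := Nat.card_le_card_of_injective Φ hΦ
  refine h6.trans (le_of_eq ?_)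
  rw [Nat.card_prod, Nat.card_pi]
  simp only [Finset.prod_const, Finset.card_univ, Fintype.card_fin]
  rw [Subgroup.relIndex, Subgroup.index]

end Pool.Agent.H46.KT
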